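import Pool.Agent.W603.PV.Hgt

/-! Project RG: heights of solutions of linear systems over function fields, by Cramer's rule. -/

set_option autoImplicit false

open FF MvPolynomial Pool.Agent.W603.LV Pool.Agent.W603.PV

namespace Pool.Agent.W977.RG

section red

variable {k : Type} [Field k] {K : Type} [Field K] [Algebra k K] {P : Place k K}

theorem ge0 {a : K} {a' : k} (h : Ge P 1 (a - algebraMap k K a')) : Ge P 0 a := by
  have h1 := (h.mono (by norm_num : (0 : ℤ) ≤ 1)).add (Ge.const (P := P) a')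
  rwa [sub_add_cancel] at h1

theorem red_const (c : k) : Ge P 1 (algebraMap k K c - algebraMap k K c) := by
  rw [sub_self]; exact Ge.zero

theorem red_add {a b : K} {a' b' : k} (ha : Ge P 1 (a - algebraMap k K a'))
    (hb : Ge P 1 (b - algebraMap k K b')) : Ge P 1 (a + b - algebraMap k K (a' + b')) := by
  rw [map_add, add_sub_add_comm]; exact ha.add hb

theorem red_mul {a b : K} {a' b' : k} (ha : Ge P 1 (a - algebraMap k K a'))
    (hb : Ge P 1 (b - algebraMap k K b')) : Ge P 1 (a * b - algebraMap k K (a' * b')) := by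
  rw [map_mul]
  have e : a * b - algebraMap k K a' * algebraMap k K b' =
      a * (b - algebraMap k K b') + (a - algebraMap k K a') * algebraMap k K b' := by ring
  rw [e]
  refine Ge.add ?_ ?_
  · simpa using (ge0 ha).mul hb
  · simpa using ha.mul (Ge.const (P := P) b')

theorem red_sum {ι : Type*} (s : Finset ι) (F : ι → K) (F' : ι → k)
    (h : ∀ i ∈ s, Ge P 1 (F i - algebraMap k K (F' i))) :
    Ge P 1 (∑ i ∈ s, F i - algebraMap k K (∑ i ∈ s, F' i)) := by
  rw [map_sum, ← Finset.sum_sub_distrib]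
  exact Ge.sum _ _ h

theorem red_pow {a : K} {a' : k} (ha : Ge P 1 (a - algebraMap k K a')) (n : ℕ) :
    Ge P 1 (a ^ n - algebraMap k K (a' ^ n)) := by
  induction n with
  | zero =>
    rw [pow_zero, pow_zero, map_one, sub_self]
    exact Ge.zero
  | succ n ih =>
    rw [pow_succ, pow_succ]
    exact red_mul ih ha

theorem red_inv {a : K} {a' : k} (ha' : a' ≠ 0) (ha : Ge P 1 (a - algebraMap k K a')) :
    a ≠ 0 ∧ Ge P 1 (a⁻¹ - algebraMap k K a'⁻¹) := by
  have key : ¬ Ge P 1 a := by
    intro h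
    apply ha'
    apply const_zero P
    have h1 := h.sub ha
    rwa [sub_sub_cancel] at h1
  have ha0 : a ≠ 0 := by
    rintro rfl
    exact key Ge.zero
  have hord : P.ord a ≤ 0 := by
    by_contra hcon
    push Not at hcon
    exact key (Or.inr (by omega))
  have hinv : Ge P 0 a⁻¹ := by
    right
    rw [P.ord_inv]
    omega
  have hm : algebraMap k K a' ≠ 0 := by
    rw [Ne, map_eq_zero]
    exact ha'
  refine ⟨ha0, ?_⟩
  have e : a⁻¹ - algebraMap k K a'⁻¹ =
      (a⁻¹ * -(a - algebraMap k K a')) * algebraMap k K a'⁻¹ := by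
    rw [map_inv₀]
    field_simp
    ring
  rw [e]
  have h1 := (hinv.mul ha.neg).mul (Ge.const (P := P) a'⁻¹)
  simpa using h1

theorem red_aeval {σ : Type*} {f : σ → K} {c : σ → k}
    (hc : ∀ j, Ge P 1 (f j - algebraMap k K (c j))) (H : MvPolynomial σ k) :
    Ge P 1 (aeval f H - algebraMap k K (eval c H)) := by
  induction H using MvPolynomial.induction_on with
  | C a => rw [aeval_C, eval_C]; exact red_const a
  | add p q hp hq => rw [map_add, map_add]; exact red_add hp hq
  | mul_X p j hp => rw [map_mul, aeval_X, map_mul, eval_X]; exact red_mul hp (hc j)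

end red

theorem exists_left_inv {k : Type} [Field k] {ρ m : Type} [Fintype ρ] [Fintype m] [DecidableEq m]
    [DecidableEq ρ] (A : Matrix ρ m k) (h : ∀ w : m → k, A.mulVec w = 0 → w = 0) :
    ∃ Y : Matrix m ρ k, Y * A = 1 := by
  have hker : LinearMap.ker (Matrix.toLin' A) = ⊥ := by
    rw [LinearMap.ker_eq_bot']
    intro w hw
    exact h w (by simpa using hw)
  obtain ⟨g, hg⟩ := LinearMap.exists_leftInverse_of_injective _ hker
  refine ⟨LinearMap.toMatrix' g, ?_⟩
  have h1 := congrArg LinearMap.toMatrix' hg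
  rw [LinearMap.toMatrix'_comp, LinearMap.toMatrix'_toLin', LinearMap.toMatrix'_id] at h1
  exact h1

section ht

variable {k : Type} [Field k] {K : Type} [Field K] [Algebra k K]

theorem hgt_const (c : k) : hgt k (algebraMap k K c) = 0 := by
  by_cases hc : c = 0
  · rw [hc, map_zero]
    exact hgt_zero
  · rw [hgt_finset (k := k) (algebraMap k K c) ∅ (fun P h => absurd (P.ord_const hc) h)]
    rfl

variable [CharZero k] [IsFF k K]

theorem affine_bound (T : Type) [Fintype T] : ∃ D : ℕ, ∀ (α : k) (β : T → k) (u : T → K),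
    hgt k (algebraMap k K α + ∑ τ, u τ * algebraMap k K (β τ)) ≤ D * ∑ τ, hgt k (u τ) := by
  classical
  obtain ⟨H, hH⟩ : ∃ H : MvPolynomial (Option (T ⊕ T)) k,
      H = X none + ∑ τ : T, X (some (Sum.inl τ)) * X (some (Sum.inr τ)) := ⟨_, rfl⟩
  refine ⟨H.totalDegree, fun α β u => ?_⟩
  obtain ⟨r, hr⟩ : ∃ r : Option (T ⊕ T) → K, r = fun a => match a with
      | none => algebraMap k K α
      | some (Sum.inl τ) => u τ
      | some (Sum.inr τ) => algebraMap k K (β τ) := ⟨_, rfl⟩
  have h1 := hgt_mvpoly (k := k) r H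
  have h2 : aeval r H = algebraMap k K α + ∑ τ, u τ * algebraMap k K (β τ) := by
    rw [hH, map_add, aeval_X, map_sum, hr]
    congr 1
    refine Finset.sum_congr rfl fun τ _ => ?_
    rw [map_mul, aeval_X, aeval_X]
  have h3 : ∑ a, hgt k (r a) = ∑ τ, hgt k (u τ) := by
    rw [Fintype.sum_option, Fintype.sum_sum_type, hr]
    simp only [hgt_const, Finset.sum_const_zero, zero_add, add_zero]
  rw [h2, h3] at h1
  exact h1

variable [IsAlgClosed k]

theorem cramer_bound (m : Type) [Fintype m] [DecidableEq m] : ∃ D : ℕ,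
    ∀ (C : Matrix m m K) (f : m → K) (y : m → k), C.det ≠ 0 →
      C.mulVec f = (fun a => algebraMap k K (y a)) →
      ∀ j, hgt k (f j) ≤ D * ∑ p : m × m, hgt k (C p.1 p.2) := by
  classical
  obtain ⟨H, hH⟩ : ∃ H : MvPolynomial (m × m) k, H = (Matrix.mvPolynomialX m m k).det := ⟨_, rfl⟩
  obtain ⟨X', hX'⟩ : ∃ X' : Matrix m m (MvPolynomial ((m × m) ⊕ m) k),
      X' = Matrix.of fun a b => X (Sum.inl (a, b)) := ⟨_, rfl⟩
  obtain ⟨G, hG⟩ : ∃ G : m → MvPolynomial ((m × m) ⊕ m) k,
      ∀ j, G j = ∑ b, X'.adjugate j b * X (Sum.inr b) := ⟨_, fun _ => rfl⟩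
  refine ⟨H.totalDegree + ∑ j, (G j).totalDegree, fun C f y hdet hCf j => ?_⟩
  have hnn : 0 ≤ ∑ p : m × m, hgt k (C p.1 p.2) := Finset.sum_nonneg fun _ _ => hgt_nonneg _
  -- the determinant
  have h1 : hgt k C.det ≤ H.totalDegree * ∑ p : m × m, hgt k (C p.1 p.2) := by
    have h2 := hgt_mvpoly (k := k) (fun p : m × m => C p.1 p.2) H
    have h3 : aeval (fun p : m × m => C p.1 p.2) H = C.det := by
      rw [hH, AlgHom.map_det, Matrix.mvPolynomialX_mapMatrix_aeval]
    rwa [h3] at h2
  -- the numerators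
  have h4 : hgt k (C.det * f j) ≤ (G j).totalDegree * ∑ p : m × m, hgt k (C p.1 p.2) := by
    obtain ⟨r, hr⟩ : ∃ r : (m × m) ⊕ m → K,
        r = Sum.elim (fun p => C p.1 p.2) (fun b => algebraMap k K (y b)) := ⟨_, rfl⟩
    have h5 := hgt_mvpoly (k := k) r (G j)
    have h6 : ∑ a, hgt k (r a) = ∑ p : m × m, hgt k (C p.1 p.2) := by
      rw [Fintype.sum_sum_type, hr]
      simp only [Sum.elim_inl, Sum.elim_inr, hgt_const, Finset.sum_const_zero, add_zero]
    have h7 : (aeval r : MvPolynomial ((m × m) ⊕ m) k →ₐ[k] K).mapMatrix X' = C := by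
      ext a b
      rw [AlgHom.mapMatrix_apply, Matrix.map_apply, hX', Matrix.of_apply, aeval_X, hr]
      rfl
    have h8 : ∀ a b, aeval r (X'.adjugate a b) = C.adjugate a b := by
      intro a b
      have h9 := AlgHom.map_adjugate (aeval r : MvPolynomial ((m × m) ⊕ m) k →ₐ[k] K) X'
      rw [h7] at h9
      exact congrFun (congrFun h9 a) b
    have h10 : aeval r (G j) = C.det * f j := by
      rw [hG, map_sum]
      have h11 : C.adjugate.mulVec (C.mulVec f) j = C.det * f j := by
        rw [Matrix.mulVec_mulVec, Matrix.adjugate_mul, Matrix.smul_mulVec, Matrix.one_mulVec]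
        rfl
      rw [← h11, hCf]
      unfold Matrix.mulVec dotProduct
      refine Finset.sum_congr rfl fun b _ => ?_
      rw [map_mul, h8, aeval_X, hr]
      rfl
    rw [h10, h6] at h5
    exact h5
  have hD : (((G j).totalDegree : ℕ) : ℤ) ≤ ((∑ j, (G j).totalDegree : ℕ) : ℤ) := by
    exact_mod_cast Finset.single_le_sum (f := fun j => (G j).totalDegree) (fun _ _ => Nat.zero_le _)
      (Finset.mem_univ j)
  by_cases hf : f j = 0
  · rw [hf, hgt_zero]
    exact mul_nonneg (by positivity) hnn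
  · have h12 : f j = C.det⁻¹ * (C.det * f j) := by
      rw [← mul_assoc, inv_mul_cancel₀ hdet, one_mul]
    have h13 := hgt_mul (k := k) (inv_ne_zero hdet) (mul_ne_zero hdet hf)
    rw [← h12, hgt_inv] at h13
    have h14 := mul_le_mul_of_nonneg_right hD hnn
    push_cast
    push_cast at h14
    rw [add_mul]
    linarith

/-- Heights of the solutions of a linear system with the matrix `α + ∑ u_τ β_τ` which is
nondegenerate at one place. -/
theorem system_bound (ρ m T : Type) [Fintype ρ] [Fintype m] [Fintype T] : ∃ D : ℕ,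
    ∀ (α : ρ → m → k) (β : T → ρ → m → k) (r : T → k) (u : T → K) (c : Place k K)
      (f : m → K) (y : ρ → k),
      (∀ τ, Ge c 1 (u τ - algebraMap k K (r τ))) →
      (∀ w : m → k, (∀ a, ∑ b, (α a b + ∑ τ, r τ * β τ a b) * w b = 0) → w = 0) →
      (∀ a, ∑ b, (algebraMap k K (α a b) + ∑ τ, u τ * algebraMap k K (β τ a b)) * f b =
        algebraMap k K (y a)) →
      ∀ j, hgt k (f j) ≤ D * ∑ τ, hgt k (u τ) := by
  classical
  obtain ⟨D1, hD1⟩ := affine_bound (k := k) (K := K) T
  obtain ⟨D2, hD2⟩ := cramer_bound (k := k) (K := K) m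
  refine ⟨D2 * (Fintype.card (m × m) * D1), ?_⟩
  intro α β r u c f y hred hker hf j
  obtain ⟨A0, hA0⟩ : ∃ A0 : Matrix ρ m k, ∀ a b, A0 a b = α a b + ∑ τ, r τ * β τ a b :=
    ⟨Matrix.of fun a b => α a b + ∑ τ, r τ * β τ a b, fun _ _ => rfl⟩
  obtain ⟨A, hA⟩ : ∃ A : Matrix ρ m K, ∀ a b, A a b =
      algebraMap k K (α a b) + ∑ τ, u τ * algebraMap k K (β τ a b) :=
    ⟨Matrix.of fun a b => algebraMap k K (α a b) + ∑ τ, u τ * algebraMap k K (β τ a b),
      fun _ _ => rfl⟩
  obtain ⟨Y, hY⟩ := exists_left_inv A0 (by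
    intro w hw
    apply hker w
    intro a
    have h1 : ∑ b, A0 a b * w b = 0 := congrFun hw a
    rw [← h1]
    exact Finset.sum_congr rfl fun b _ => by rw [hA0])
  have hAred : ∀ a b, Ge c 1 (A a b - algebraMap k K (A0 a b)) := by
    intro a b
    rw [hA, hA0]
    refine red_add (red_const _) (red_sum _ _ _ fun τ _ => ?_)
    exact red_mul (hred τ) (red_const _)
  obtain ⟨C, hC⟩ : ∃ C : Matrix m m K, C = Y.map (algebraMap k K) * A := ⟨_, rfl⟩
  have hCab : ∀ a b, C a b = ∑ e, algebraMap k K (Y a e) * A e b := by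
    intro a b
    rw [hC, Matrix.mul_apply]
    exact Finset.sum_congr rfl fun e _ => by rw [Matrix.map_apply]
  have hCred : ∀ a b, Ge c 1 (C a b - algebraMap k K ((1 : Matrix m m k) a b)) := by
    intro a b
    rw [hCab, ← hY, Matrix.mul_apply]
    exact red_sum _ _ _ fun e _ => red_mul (red_const _) (hAred e b)
  have hdet : C.det ≠ 0 := by
    have h1 := red_aeval (P := c) (f := fun p : m × m => C p.1 p.2)
      (c := fun p : m × m => (1 : Matrix m m k) p.1 p.2) (fun p => hCred p.1 p.2)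
      (Matrix.mvPolynomialX m m k).det
    have h2 : aeval (fun p : m × m => C p.1 p.2) (Matrix.mvPolynomialX m m k).det = C.det := by
      rw [AlgHom.map_det, Matrix.mvPolynomialX_mapMatrix_aeval]
    have h3 : eval (fun p : m × m => (1 : Matrix m m k) p.1 p.2)
        (Matrix.mvPolynomialX m m k).det = 1 := by
      have h4 : aeval (fun p : m × m => (1 : Matrix m m k) p.1 p.2)
          (Matrix.mvPolynomialX m m k).det = (1 : Matrix m m k).det := by
        rw [AlgHom.map_det, Matrix.mvPolynomialX_mapMatrix_aeval]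
      rw [Matrix.det_one, aeval_eq_eval] at h4
      exact h4
    rw [h2, h3] at h1
    intro h0
    rw [h0, zero_sub] at h1
    have h5 : Ge c 1 (algebraMap k K 1) := by
      rw [map_one]
      simpa using h1.neg
    exact one_ne_zero (const_zero c h5)
  have hCf : C.mulVec f = fun a => algebraMap k K (∑ e, Y a e * y e) := by
    have h1 : A.mulVec f = fun e => algebraMap k K (y e) := by
      funext e
      rw [← hf e]
      show ∑ b, A e b * f b = _
      exact Finset.sum_congr rfl fun b _ => by rw [hA]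
    rw [hC, ← Matrix.mulVec_mulVec, h1]
    funext a
    show ∑ e, Y.map (algebraMap k K) a e * algebraMap k K (y e) = _
    rw [map_sum]
    exact Finset.sum_congr rfl fun e _ => by rw [Matrix.map_apply, map_mul]
  have h1 := hD2 C f _ hdet hCf j
  have hU : 0 ≤ ∑ τ, hgt k (u τ) := Finset.sum_nonneg fun _ _ => hgt_nonneg _
  have hCh : ∀ p : m × m, hgt k (C p.1 p.2) ≤ D1 * ∑ τ, hgt k (u τ) := by
    intro p
    have h2 : C p.1 p.2 = algebraMap k K (∑ e, Y p.1 e * α e p.2) +
        ∑ τ, u τ * algebraMap k K (∑ e, Y p.1 e * β τ e p.2) := by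
      rw [hCab]
      simp only [hA, map_sum, map_mul, mul_add, Finset.sum_add_distrib, Finset.mul_sum]
      congr 1
      rw [Finset.sum_comm]
      exact Finset.sum_congr rfl fun τ _ => Finset.sum_congr rfl fun e _ => by ring
    rw [h2]
    exact hD1 _ _ _
  have h3 : ∑ p : m × m, hgt k (C p.1 p.2) ≤ Fintype.card (m × m) * (D1 * ∑ τ, hgt k (u τ)) := by
    refine (Finset.sum_le_card_nsmul _ _ _ fun p _ => hCh p).trans (le_of_eq ?_)
    rw [nsmul_eq_mul, Finset.card_univ]
  calc hgt k (f j) ≤ D2 * ∑ p : m × m, hgt k (C p.1 p.2) := h1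
    _ ≤ D2 * (Fintype.card (m × m) * (D1 * ∑ τ, hgt k (u τ))) :=
      mul_le_mul_of_nonneg_left h3 (by positivity)
    _ = ((D2 * (Fintype.card (m × m) * D1) : ℕ) : ℤ) * ∑ τ, hgt k (u τ) := by
      push_cast
      ring

end ht

end Pool.Agent.W977.RG
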