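import Pool.Agent.W602.RG.Stm3
import Pool.Agent.W977.RG.HtwA

/-! Project RG: the degrees of the pointed maps without line are bounded. -/

set_option autoImplicit false

open FF MvPolynomial Pool.Agent.W603.LV Pool.Agent.W603.PV
open Pool.Agent.W602.GT (lin)

namespace Pool.Agent.W977.RG

open Pool.Agent.W602.RG

section

variable {k : Type} [Field k] {n : ℕ} {ι : Type}

/-- the pairs of terms -/
abbrev TT (s : ι → ℕ) : Type := Σ i, Fin (s i) × Fin (s i)

/-- the rows of the linear system -/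
abbrev RR (s : ι → ℕ) : Type := Option ((Σ i, Fin (s i)) ⊕ TT s)

open Classical in
/-- constant part of the system -/
noncomputable def al (s : ι → ℕ) (l : ∀ i, Fin (s i) → Fin (n + 1) → k) (j0 : Fin (n + 1))
    (Z : ∀ i, Fin (s i) → Prop) (Q : ∀ i, Fin (s i) → Fin (s i) → Prop) :
    RR s → Fin (n + 1) → k
  | none, b => if b = j0 then 1 else 0
  | some (Sum.inl a), b => if Z a.1 a.2 then l a.1 a.2 b else 0
  | some (Sum.inr τ), b => if Q τ.1 τ.2.1 τ.2.2 then l τ.1 τ.2.1 b else 0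

open Classical in
/-- linear part of the system -/
noncomputable def be (s : ι → ℕ) (l : ∀ i, Fin (s i) → Fin (n + 1) → k)
    (Q : ∀ i, Fin (s i) → Fin (s i) → Prop) (τ : TT s) : RR s → Fin (n + 1) → k
  | none, _ => 0
  | some (Sum.inl _), _ => 0
  | some (Sum.inr σ), b => if τ = σ ∧ Q τ.1 τ.2.1 τ.2.2 then - l τ.1 τ.2.2 b else 0

variable {M : Type} [Field M] [Algebra k M]

theorem lin_def (l : Fin (n + 1) → k) (x : Fin (n + 1) → M) :
    lin l x = ∑ b, algebraMap k M (l b) * x b := rfl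

theorem al_inl_pos (s : ι → ℕ) (l : ∀ i, Fin (s i) → Fin (n + 1) → k) (j0 : Fin (n + 1))
    (Z : ∀ i, Fin (s i) → Prop) (Q : ∀ i, Fin (s i) → Fin (s i) → Prop) (a : Σ i, Fin (s i))
    (b : Fin (n + 1)) (h : Z a.1 a.2) : al s l j0 Z Q (some (Sum.inl a)) b = l a.1 a.2 b := by
  simp [al, h]

theorem al_inl_neg (s : ι → ℕ) (l : ∀ i, Fin (s i) → Fin (n + 1) → k) (j0 : Fin (n + 1))
    (Z : ∀ i, Fin (s i) → Prop) (Q : ∀ i, Fin (s i) → Fin (s i) → Prop) (a : Σ i, Fin (s i))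
    (b : Fin (n + 1)) (h : ¬ Z a.1 a.2) : al s l j0 Z Q (some (Sum.inl a)) b = 0 := by
  simp [al, h]

theorem al_inr_pos (s : ι → ℕ) (l : ∀ i, Fin (s i) → Fin (n + 1) → k) (j0 : Fin (n + 1))
    (Z : ∀ i, Fin (s i) → Prop) (Q : ∀ i, Fin (s i) → Fin (s i) → Prop) (σ : TT s)
    (b : Fin (n + 1)) (h : Q σ.1 σ.2.1 σ.2.2) :
    al s l j0 Z Q (some (Sum.inr σ)) b = l σ.1 σ.2.1 b := by
  simp [al, h]

theorem al_inr_neg (s : ι → ℕ) (l : ∀ i, Fin (s i) → Fin (n + 1) → k) (j0 : Fin (n + 1))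
    (Z : ∀ i, Fin (s i) → Prop) (Q : ∀ i, Fin (s i) → Fin (s i) → Prop) (σ : TT s)
    (b : Fin (n + 1)) (h : ¬ Q σ.1 σ.2.1 σ.2.2) :
    al s l j0 Z Q (some (Sum.inr σ)) b = 0 := by
  simp [al, h]

theorem be_pos (s : ι → ℕ) (l : ∀ i, Fin (s i) → Fin (n + 1) → k)
    (Q : ∀ i, Fin (s i) → Fin (s i) → Prop) (σ : TT s)
    (b : Fin (n + 1)) (h : Q σ.1 σ.2.1 σ.2.2) :
    be s l Q σ (some (Sum.inr σ)) b = - l σ.1 σ.2.2 b := by
  simp [be, h]

theorem be_neg (s : ι → ℕ) (l : ∀ i, Fin (s i) → Fin (n + 1) → k)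
    (Q : ∀ i, Fin (s i) → Fin (s i) → Prop) (σ : TT s)
    (b : Fin (n + 1)) (h : ¬ Q σ.1 σ.2.1 σ.2.2) :
    be s l Q σ (some (Sum.inr σ)) b = 0 := by
  simp [be, h]

theorem be_ne (s : ι → ℕ) (l : ∀ i, Fin (s i) → Fin (n + 1) → k)
    (Q : ∀ i, Fin (s i) → Fin (s i) → Prop) (τ σ : TT s)
    (b : Fin (n + 1)) (h : τ ≠ σ) :
    be s l Q τ (some (Sum.inr σ)) b = 0 := by
  simp [be, h]

theorem row_none [Fintype ι] (s : ι → ℕ) (l : ∀ i, Fin (s i) → Fin (n + 1) → k)
    (j0 : Fin (n + 1)) (Z : ∀ i, Fin (s i) → Prop) (Q : ∀ i, Fin (s i) → Fin (s i) → Prop)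
    (u : TT s → M) (w : Fin (n + 1) → M) :
    ∑ b, (algebraMap k M (al s l j0 Z Q none b) +
      ∑ τ, u τ * algebraMap k M (be s l Q τ none b)) * w b = w j0 := by
  have h : ∀ b, (algebraMap k M (al s l j0 Z Q none b) +
      ∑ τ, u τ * algebraMap k M (be s l Q τ none b)) * w b = if b = j0 then w b else 0 := by
    intro b
    have h1 : ∑ τ, u τ * algebraMap k M (be s l Q τ none b) = 0 :=
      Finset.sum_eq_zero fun τ _ => by
        show u τ * algebraMap k M 0 = 0
        rw [map_zero, mul_zero]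
    rw [h1, add_zero]
    show algebraMap k M (if b = j0 then 1 else 0) * w b = _
    split_ifs
    · rw [map_one, one_mul]
    · rw [map_zero, zero_mul]
  rw [Finset.sum_congr rfl fun b _ => h b, Finset.sum_ite_eq' Finset.univ j0]
  simp

theorem row_inl [Fintype ι] (s : ι → ℕ) (l : ∀ i, Fin (s i) → Fin (n + 1) → k)
    (j0 : Fin (n + 1)) (Z : ∀ i, Fin (s i) → Prop) (Q : ∀ i, Fin (s i) → Fin (s i) → Prop)
    (u : TT s → M) (w : Fin (n + 1) → M) (a : Σ i, Fin (s i)) :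
    (Z a.1 a.2 → ∑ b, (algebraMap k M (al s l j0 Z Q (some (Sum.inl a)) b) +
      ∑ τ, u τ * algebraMap k M (be s l Q τ (some (Sum.inl a)) b)) * w b = lin (l a.1 a.2) w) ∧
    (¬ Z a.1 a.2 → ∑ b, (algebraMap k M (al s l j0 Z Q (some (Sum.inl a)) b) +
      ∑ τ, u τ * algebraMap k M (be s l Q τ (some (Sum.inl a)) b)) * w b = 0) := by
  have h1 : ∀ b, ∑ τ, u τ * algebraMap k M (be s l Q τ (some (Sum.inl a)) b) = 0 := fun b =>
    Finset.sum_eq_zero fun τ _ => by
      show u τ * algebraMap k M 0 = 0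
      rw [map_zero, mul_zero]
  constructor
  · intro hZ
    rw [lin_def]
    refine Finset.sum_congr rfl fun b _ => ?_
    rw [h1, add_zero, al_inl_pos s l j0 Z Q a b hZ]
  · intro hZ
    refine Finset.sum_eq_zero fun b _ => ?_
    rw [h1, add_zero, al_inl_neg s l j0 Z Q a b hZ, map_zero, zero_mul]

theorem row_inr [Fintype ι] (s : ι → ℕ) (l : ∀ i, Fin (s i) → Fin (n + 1) → k)
    (j0 : Fin (n + 1)) (Z : ∀ i, Fin (s i) → Prop) (Q : ∀ i, Fin (s i) → Fin (s i) → Prop)
    (u : TT s → M) (w : Fin (n + 1) → M) (σ : TT s) :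
    (Q σ.1 σ.2.1 σ.2.2 → ∑ b, (algebraMap k M (al s l j0 Z Q (some (Sum.inr σ)) b) +
      ∑ τ, u τ * algebraMap k M (be s l Q τ (some (Sum.inr σ)) b)) * w b =
        lin (l σ.1 σ.2.1) w - u σ * lin (l σ.1 σ.2.2) w) ∧
    (¬ Q σ.1 σ.2.1 σ.2.2 → ∑ b, (algebraMap k M (al s l j0 Z Q (some (Sum.inr σ)) b) +
      ∑ τ, u τ * algebraMap k M (be s l Q τ (some (Sum.inr σ)) b)) * w b = 0) := by
  have h1 : ∀ b, ∑ τ, u τ * algebraMap k M (be s l Q τ (some (Sum.inr σ)) b) =
      u σ * algebraMap k M (be s l Q σ (some (Sum.inr σ)) b) := by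
    intro b
    refine Finset.sum_eq_single σ (fun τ _ hτ => ?_) (fun h => absurd (Finset.mem_univ _) h)
    rw [be_ne s l Q τ σ b hτ, map_zero, mul_zero]
  constructor
  · intro hQ
    rw [lin_def, lin_def, Finset.mul_sum, ← Finset.sum_sub_distrib]
    refine Finset.sum_congr rfl fun b _ => ?_
    rw [h1, be_pos s l Q σ b hQ, al_inr_pos s l j0 Z Q σ b hQ, map_neg]
    ring
  · intro hQ
    refine Finset.sum_eq_zero fun b _ => ?_
    rw [h1, be_neg s l Q σ b hQ, al_inr_neg s l j0 Z Q σ b hQ, map_zero, mul_zero, add_zero,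
      zero_mul]

end

/-- Blocks of small height of the nonzero terms. -/
theorem blocks_at {k L : Type} [Field k] [Field L] [Algebra k L] [IsAlgClosed k] [CharZero k]
    [IsFF k L] {s d : ℕ} (hd : 0 < d) (hsd : (s - 1) ^ 2 ≤ d) (z : Fin s → L)
    (hz : ∑ t, z t ^ d = 0) :
    ∃ R : Fin s → Fin s → Prop, Equivalence R ∧ (∀ t t', R t t' → (z t = 0 ↔ z t' = 0)) ∧
      (∀ t t', R t t' → z t' ≠ 0 → hgt k (z t / z t') ≤
        s * (d * tri s * max (canDeg k L + ((∅ : Finset (Place k L)).card : ℤ)) 0)) ∧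
      ∀ (t0 : Fin s) (A : Finset (Fin s)), (∀ t, t ∈ A ↔ R t t0) → ∑ t ∈ A, z t ^ d = 0 := by
  classical
  have hsum : ∑ j : {t : Fin s // z t ≠ 0}, z j.1 ^ d = 0 := by
    refine Eq.trans ?_ hz
    rw [← Finset.sum_subtype (Finset.univ.filter fun t => z t ≠ 0) (by simp)
      (fun t => z t ^ d)]
    refine Finset.sum_subset (Finset.filter_subset _ _) ?_
    intro t _ ht
    rw [Finset.mem_filter, not_and, not_not] at ht
    rw [ht (Finset.mem_univ t), zero_pow hd.ne']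
  obtain ⟨R, hR, hRh, hRs⟩ := blocks (k := k) (J := {t : Fin s // z t ≠ 0})
    (∅ : Finset (Place k L)) (s := s) (by
      have := Fintype.card_subtype_le (fun t : Fin s => z t ≠ 0)
      simpa using this) hd hsd (fun j => z j.1 ^ d) (fun j => pow_ne_zero _ j.2) hsum (by
      intro P _ i j
      rw [P.ord_pow, P.ord_pow]
      exact dvd_sub (Dvd.intro _ rfl) (Dvd.intro _ rfl))
  have hdd : (1 : ℤ) ≤ d := by exact_mod_cast hd
  refine ⟨fun t t' => (∃ (h : z t ≠ 0) (h' : z t' ≠ 0), R ⟨t, h⟩ ⟨t', h'⟩) ∨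
    (z t = 0 ∧ z t' = 0), ⟨?_, ?_, ?_⟩, ?_, ?_, ?_⟩
  · intro t
    by_cases h : z t = 0
    · exact Or.inr ⟨h, h⟩
    · exact Or.inl ⟨h, h, hR.refl _⟩
  · rintro t t' (⟨h, h', hr⟩ | ⟨h, h'⟩)
    · exact Or.inl ⟨h', h, hR.symm hr⟩
    · exact Or.inr ⟨h', h⟩
  · rintro t t' t'' (⟨h, h', hr⟩ | ⟨h, h'⟩) (⟨g, g', hr'⟩ | ⟨g, g'⟩)
    · exact Or.inl ⟨h, g', hR.trans hr hr'⟩
    · exact absurd g h'
    · exact absurd h' g
    · exact Or.inr ⟨h, g'⟩
  · rintro t t' (⟨h, h', _⟩ | ⟨h, h'⟩)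
    · exact ⟨fun h0 => absurd h0 h, fun h0 => absurd h0 h'⟩
    · exact ⟨fun _ => h', fun _ => h⟩
  · rintro t t' (⟨h, h', hr⟩ | ⟨h, h'⟩) hne
    · have h1 := hRh _ _ hr
      simp only at h1
      rw [← div_pow, hgt_pow (div_ne_zero h h')] at h1
      have h2 := hgt_nonneg (k := k) (z t / z t')
      refine le_trans ?_ h1
      nlinarith
    · exact absurd h' hne
  · intro t0 A hA
    by_cases h0 : z t0 = 0
    · refine Finset.sum_eq_zero fun t ht => ?_
      rcases (hA t).mp ht with ⟨_, h', _⟩ | ⟨h, _⟩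
      · exact absurd h0 h'
      · rw [h, zero_pow hd.ne']
    · have h1 := hRs ⟨t0, h0⟩ (Finset.univ.filter fun j => j.1 ∈ A) (by
        intro j
        rw [Finset.mem_filter, hA]
        constructor
        · rintro ⟨-, ⟨_, _, hr⟩ | ⟨h, _⟩⟩
          · exact hR.symm hr
          · exact absurd h j.2
        · intro hr
          exact ⟨Finset.mem_univ _, Or.inl ⟨j.2, h0, hR.symm hr⟩⟩)
      rw [← h1]
      have h2 : A = (Finset.univ.filter fun t => z t ≠ 0).filter fun t => t ∈ A := by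
        ext t
        simp only [Finset.mem_filter, Finset.mem_univ, true_and]
        constructor
        · intro ht
          refine ⟨?_, ht⟩
          rcases (hA t).mp ht with ⟨h, _, _⟩ | ⟨_, h⟩
          · exact h
          · exact absurd h h0
        · exact fun h => h.2
      rw [Finset.sum_filter, ← Finset.sum_subtype (Finset.univ.filter fun t => z t ≠ 0) (by simp)
        (fun t => if t ∈ A then z t ^ d else 0), ← Finset.sum_filter, ← h2]

theorem main : S_HTW := by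
  intro k L _ _ _ _ _ _ n ι _ s d l hd hsd c x j0 hx0 hnot
  classical
  have : Fintype ι := Fintype.ofFinite ι
  obtain ⟨D, hD⟩ := system_bound (k := k) (K := L) (RR s) (Fin (n + 1)) (TT s)
  obtain ⟨Bd, hBd⟩ : ∃ Bd : ι → ℤ, ∀ i, Bd i =
      s i * (d i * tri (s i) * max (canDeg k L + ((∅ : Finset (Place k L)).card : ℤ)) 0) :=
    ⟨_, fun _ => rfl⟩
  refine ⟨∑ _j : Fin (n + 1), D * ∑ τ : TT s, Bd τ.1, ?_⟩
  intro f hf0 hfe hfz hfc
  have hBd0 : ∀ i, 0 ≤ Bd i := by
    intro i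
    rw [hBd]
    exact mul_nonneg (by positivity) (mul_nonneg (mul_nonneg (by positivity) (tri_nonneg _))
      (le_max_right _ _))
  -- reduction at the place
  have hfred : ∀ j, Ge c 1 (f j - algebraMap k L (x j / x j0)) := by
    intro j
    rcases hfc j with h | h
    · left
      rw [h, sub_self]
    · right
      omega
  have hlred : ∀ i t, Ge c 1 (lin (l i t) f - algebraMap k L (lin (l i t) x / x j0)) := by
    intro i t
    have h1 : lin (l i t) x / x j0 = ∑ b, l i t b * (x b / x j0) := by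
      unfold lin
      rw [Finset.sum_div]
      exact Finset.sum_congr rfl fun b _ => by
        rw [Algebra.algebraMap_self_apply, mul_div_assoc]
    rw [h1]
    exact red_sum _ _ _ fun b _ => red_mul (red_const _) (hfred b)
  have hzero : ∀ i t, lin (l i t) f = 0 ↔ lin (l i t) x = 0 := by
    intro i t
    refine ⟨fun h => ?_, hfz i t⟩
    have h1 := hlred i t
    rw [h, zero_sub] at h1
    have h9 := h1.neg
    rw [neg_neg] at h9
    have h2 := const_zero c h9
    rcases div_eq_zero_iff.mp h2 with h3 | h3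
    · exact h3
    · exact absurd h3 hx0
  -- the blocks
  choose R hR hRz hRh hRs using fun i => blocks_at (k := k) (hd i) (hsd i)
    (fun t => lin (l i t) f) (hfe i)
  obtain ⟨Q, hQ⟩ : ∃ Q : ∀ i, Fin (s i) → Fin (s i) → Prop, ∀ i t t', Q i t t' ↔
      R i t t' ∧ lin (l i t') x ≠ 0 := ⟨fun i t t' => R i t t' ∧ lin (l i t') x ≠ 0, fun _ _ _ => Iff.rfl⟩
  obtain ⟨u, hu⟩ : ∃ u : TT s → L, ∀ τ, u τ = if Q τ.1 τ.2.1 τ.2.2 then
      lin (l τ.1 τ.2.1) f / lin (l τ.1 τ.2.2) f else 0 := ⟨_, fun _ => rfl⟩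
  obtain ⟨r, hr⟩ : ∃ r : TT s → k, ∀ τ, r τ = if Q τ.1 τ.2.1 τ.2.2 then
      lin (l τ.1 τ.2.1) x / lin (l τ.1 τ.2.2) x else 0 := ⟨_, fun _ => rfl⟩
  have hur : ∀ τ, Ge c 1 (u τ - algebraMap k L (r τ)) := by
    intro τ
    rw [hu, hr]
    by_cases hq : Q τ.1 τ.2.1 τ.2.2
    · rw [if_pos hq, if_pos hq]
      have h1 : lin (l τ.1 τ.2.2) x / x j0 ≠ 0 := div_ne_zero ((hQ _ _ _).mp hq).2 hx0
      have h2 := red_mul (hlred τ.1 τ.2.1) (red_inv h1 (hlred τ.1 τ.2.2)).2
      have h3 : lin (l τ.1 τ.2.1) x / x j0 * (lin (l τ.1 τ.2.2) x / x j0)⁻¹ =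
          lin (l τ.1 τ.2.1) x / lin (l τ.1 τ.2.2) x := by
        have := ((hQ _ _ _).mp hq).2
        field_simp
      rw [h3] at h2
      rw [div_eq_mul_inv]
      exact h2
    · rw [if_neg hq, if_neg hq]
      have := red_const (P := c) (0 : k)
      rwa [map_zero] at this ⊢
  have hker : ∀ w : Fin (n + 1) → k,
      (∀ a, ∑ b, (al s l j0 (fun i t => lin (l i t) x = 0) Q a b +
        ∑ τ, r τ * be s l Q τ a b) * w b = 0) → w = 0 := by
    intro w hw
    have hw' : ∀ a, ∑ b, (algebraMap k k (al s l j0 (fun i t => lin (l i t) x = 0) Q a b) +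
        ∑ τ, r τ * algebraMap k k (be s l Q τ a b)) * w b = 0 := hw
    have h0 : w j0 = 0 := by
      have h1 := hw' none
      rwa [row_none] at h1
    by_contra hne
    apply hnot
    refine ⟨R, w, hR, ?_, ?_, ?_, ?_⟩
    · by_contra hcon
      push Not at hcon
      apply hne
      funext j
      have h1 := hcon j j0
      rw [h0, zero_mul] at h1
      exact (mul_eq_zero.mp h1).resolve_right hx0
    · intro i t ht
      have h1 := hw' (some (Sum.inl ⟨i, t⟩))
      rw [(row_inl s l j0 (fun i t => lin (l i t) x = 0) Q r w ⟨i, t⟩).1 ht] at h1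
      exact h1
    · intro i t t' hRt
      by_cases ht' : lin (l i t') x = 0
      · have ht : lin (l i t) x = 0 := by
          rw [← hzero]
          exact (hRz i t t' hRt).mpr ((hzero i t').mpr ht')
        rw [ht, ht', mul_zero, mul_zero]
      · have hq : Q i t t' := (hQ i t t').mpr ⟨hRt, ht'⟩
        have h1 := hw' (some (Sum.inr ⟨i, t, t'⟩))
        rw [(row_inr s l j0 (fun i t => lin (l i t) x = 0) Q r w ⟨i, t, t'⟩).1 hq, hr,
          if_pos hq] at h1
        have h2 : lin (l i t) w = lin (l i t) x / lin (l i t') x * lin (l i t') w :=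
          sub_eq_zero.mp h1
        rw [h2]
        field_simp
    · intro i t0 A hA
      have h1 := hRs i t0 A hA
      have h2 : Ge c 1 (∑ t ∈ A, lin (l i t) f ^ d i -
          algebraMap k L (∑ t ∈ A, (lin (l i t) x / x j0) ^ d i)) :=
        red_sum _ _ _ fun t _ => red_pow (hlred i t) _
      rw [h1, zero_sub] at h2
      have h9 := h2.neg
      rw [neg_neg] at h9
      have h3 := const_zero c h9
      have h4 : (∑ t ∈ A, lin (l i t) x ^ d i) / x j0 ^ d i = 0 := by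
        rw [← h3, Finset.sum_div]
        exact Finset.sum_congr rfl fun t _ => by rw [div_pow]
      rcases div_eq_zero_iff.mp h4 with h5 | h5
      · exact h5
      · exact absurd h5 (pow_ne_zero _ hx0)
  have hsys : ∀ a, ∑ b, (algebraMap k L (al s l j0 (fun i t => lin (l i t) x = 0) Q a b) +
      ∑ τ, u τ * algebraMap k L (be s l Q τ a b)) * f b =
        algebraMap k L (if a = none then 1 else 0) := by
    intro a
    rcases a with _ | a | τ
    · rw [row_none, hf0, if_pos rfl, map_one]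
    · rw [if_neg (by simp), map_zero]
      by_cases hz : lin (l a.1 a.2) x = 0
      · rw [(row_inl s l j0 (fun i t => lin (l i t) x = 0) Q u f a).1 hz]
        exact hfz _ _ hz
      · exact (row_inl s l j0 (fun i t => lin (l i t) x = 0) Q u f a).2 hz
    · rw [if_neg (by simp), map_zero]
      by_cases hq : Q τ.1 τ.2.1 τ.2.2
      · rw [(row_inr s l j0 (fun i t => lin (l i t) x = 0) Q u f τ).1 hq, hu, if_pos hq]
        have h1 : lin (l τ.1 τ.2.2) f ≠ 0 := by
          rw [Ne, hzero]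
          exact ((hQ _ _ _).mp hq).2
        rw [div_mul_cancel₀ _ h1, sub_self]
      · exact (row_inr s l j0 (fun i t => lin (l i t) x = 0) Q u f τ).2 hq
  have hfj := hD _ _ r u c f _ hur hker hsys
  have huh : ∀ τ, hgt k (u τ) ≤ Bd τ.1 := by
    intro τ
    rw [hu]
    by_cases hq : Q τ.1 τ.2.1 τ.2.2
    · rw [if_pos hq, hBd]
      have h1 : lin (l τ.1 τ.2.2) f ≠ 0 := by
        rw [Ne, hzero]
        exact ((hQ _ _ _).mp hq).2
      exact hRh τ.1 _ _ ((hQ _ _ _).mp hq).1 h1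
    · rw [if_neg hq, hgt_zero]
      exact hBd0 _
  have hne : f j0 ≠ 0 := by
    rw [hf0]
    exact one_ne_zero
  refine (pht_le (k := k) f hne).trans ?_
  refine Finset.sum_le_sum fun j _ => ?_
  rw [hf0, div_one]
  exact (hfj j).trans (mul_le_mul_of_nonneg_left (Finset.sum_le_sum fun τ _ => huh τ)
    (by positivity))

end Pool.Agent.W977.RG
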